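import Pool.Agent.Helper14.AY.GoalsA

/-! # Packet GS1: the Schauder estimate for the Laplacian -/

open Complex Metric Set Filter Topology MeasureTheory
open scoped ContDiff ComplexConjugate ComplexOrder Manifold Matrix

namespace Pool.Agent.Helper94.AY

open Pool.Agent.Helper95.Lin Pool.Agent.Helper16.Abund Pool.Agent.Helper92.Orb Pool.Agent.Helper10.SP
  Pool.Agent.Helper95.RK Pool.Agent.Helper57.HS Pool.Agent.Helper14.AY

variable {n : ℕ}

/-- The real coordinates. -/
noncomputable def crd (a : Fin n × Bool) (z : Cn n) : ℝ := if a.2 then (z a.1).im else (z a.1).re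

theorem crd_le (a : Fin n × Bool) (z : Cn n) : |crd a z| ≤ ‖z‖ := by
  unfold crd
  split_ifs
  · exact (Complex.abs_im_le_norm _).trans (norm_le_pi_norm z a.1)
  · exact (Complex.abs_re_le_norm _).trans (norm_le_pi_norm z a.1)

theorem rb_expand (z : Cn n) : z = ∑ a : Fin n × Bool, crd a z • rb a := by
  ext i
  rw [Finset.sum_apply, Fintype.sum_prod_type]
  simp only [Fintype.sum_bool, Pi.smul_apply, rb, crd, if_true, Bool.false_eq_true, if_false,
    Complex.real_smul]
  have h : ∀ j ∈ (Finset.univ : Finset (Fin n)), j ≠ i →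
      ((z j).im : ℂ) * (Pi.single j I : Cn n) i + ((z j).re : ℂ) * (Pi.single j 1 : Cn n) i = 0 := by
    intro j _ hj
    rw [Pi.single_eq_of_ne hj.symm, Pi.single_eq_of_ne hj.symm]
    simp
  rw [Finset.sum_eq_single i h (fun h => absurd (Finset.mem_univ i) h), Pi.single_eq_same,
    Pi.single_eq_same, mul_one, add_comm, Complex.re_add_im]

theorem norm_bil (L : Cn n →L[ℝ] Cn n →L[ℝ] ℝ) :
    ‖L‖ ≤ ∑ b : Fin n × Bool, ∑ c : Fin n × Bool, |L (rb b) (rb c)| := by
  refine ContinuousLinearMap.opNorm_le_bound₂ L (Finset.sum_nonneg fun b _ =>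
    Finset.sum_nonneg fun c _ => abs_nonneg _) fun z z' => ?_
  have e : L z z' = ∑ b : Fin n × Bool, ∑ c : Fin n × Bool,
      crd b z * (crd c z' * L (rb b) (rb c)) := by
    have e1 : L z = ∑ b : Fin n × Bool, crd b z • L (rb b) := by
      conv_lhs => rw [rb_expand z]
      rw [map_sum]
      exact Finset.sum_congr rfl fun b _ => map_smul _ _ _
    have e2 : ∀ M : Cn n →L[ℝ] ℝ, M z' = ∑ c : Fin n × Bool, crd c z' * M (rb c) := by
      intro M
      conv_lhs => rw [rb_expand z']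
      rw [map_sum]
      exact Finset.sum_congr rfl fun c _ => map_smul _ _ _
    rw [e1, _root_.sum_apply]
    refine Finset.sum_congr rfl fun b _ => ?_
    rw [_root_.smul_apply, smul_eq_mul, e2 (L (rb b)), Finset.mul_sum]
  rw [e, mul_assoc, Finset.sum_mul]
  refine (norm_sum_le _ _).trans (Finset.sum_le_sum fun b _ => ?_)
  rw [Finset.sum_mul]
  refine (norm_sum_le _ _).trans (Finset.sum_le_sum fun c _ => ?_)
  rw [norm_mul, norm_mul, Real.norm_eq_abs, Real.norm_eq_abs, Real.norm_eq_abs]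
  have h1 := crd_le b z
  have h2 := crd_le c z'
  have h3 : |crd b z| * |crd c z'| ≤ ‖z‖ * ‖z'‖ :=
    mul_le_mul h1 h2 (abs_nonneg _) (norm_nonneg _)
  calc |crd b z| * (|crd c z'| * |L (rb b) (rb c)|) =
        |L (rb b) (rb c)| * (|crd b z| * |crd c z'|) := by ring
    _ ≤ |L (rb b) (rb c)| * (‖z‖ * ‖z'‖) := mul_le_mul_of_nonneg_left h3 (abs_nonneg _)

theorem D2_apply {w : Cn n → ℝ} (hw : ContDiff ℝ 2 w) (x u v : Cn n) :
    D2 w x u v = hess w x u v := by
  unfold D2 hess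
  have h1 : DifferentiableAt ℝ (fderiv ℝ w) x :=
    (hw.fderiv_right (m := 1) (by norm_num)).differentiable (by simp) x
  rw [fderiv_clm_apply h1 (differentiableAt_const v)]
  simp

theorem hess_cont {w : Cn n → ℝ} (hw : ContDiff ℝ 2 w) (u v : Cn n) :
    Continuous fun x => hess w x u v := by
  have h1 : ContDiff ℝ 1 (fderiv ℝ w) := hw.fderiv_right (m := 1) (by norm_num)
  have h2 : ContDiff ℝ 1 fun y => fderiv ℝ w y v := h1.clm_apply contDiff_const
  exact (h2.continuous_fderiv (by simp)).clm_apply continuous_const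

theorem tf_dir {k : Cn n → ℝ} (hk : TF k) (v : Cn n) : TF fun y => fderiv ℝ k y v := by
  refine ⟨(hk.1.fderiv_right (m := ∞) (by simp)).clm_apply contDiff_const, ?_⟩
  refine (hk.2.fderiv ℝ).mono ?_
  intro y hy
  rw [Function.mem_support] at hy ⊢
  intro h
  apply hy
  rw [h]; rfl

theorem tf_hess {k : Cn n → ℝ} (hk : TF k) (u v : Cn n) : TF fun y => hess k y u v :=
  tf_dir (tf_dir hk v) u

theorem int_dir {k : Cn n → ℝ} (hk : TF k) (v : Cn n) : ∫ y, fderiv ℝ k y v = 0 := by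
  have hI : Integrable fun x => fderiv ℝ k x v :=
    (tf_dir hk v).1.continuous.integrable_of_hasCompactSupport (tf_dir hk v).2
  have hkI : Integrable k := hk.1.continuous.integrable_of_hasCompactSupport hk.2
  have h := integral_smul_fderiv_eq_neg_fderiv_smul_of_integrable
    (μ := (volume : Measure (Cn n))) (𝕜 := ℝ)
    (f := fun _ => (1 : ℝ)) (g := k) (v := v) (by simp)
    (by simpa using hI) (by simpa using hkI)
    (fun x _ => differentiableAt_const _) (fun x _ => hk.1.differentiable (by simp) x)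
  simpa using h

/-- The packet GS1. -/
theorem gs1 (hKER : S_KER) (hCVH : S_CVH) (hGSL : S_GSL) (hGSI : S_GSI) : S_GS1 := by
  intro n a ha ha1
  rcases Nat.eq_zero_or_pos n with hn | hn
  · subst hn
    refine ⟨1, one_pos, fun w _ _ M _ x _ y _ => ?_⟩
    have : x = y := Subsingleton.elim x y
    have e1 : ‖x - y‖ ^ a = 0 := by
      rw [this, sub_self, norm_zero, Real.zero_rpow ha.ne']
    rw [e1, mul_zero]
    refine (norm_bil _).trans (le_of_eq ?_)
    exact Finset.sum_eq_zero fun b _ => (IsEmpty.false b.1).elim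
  obtain ⟨φ, ψ, hφ, hψ, hφ1, hψd⟩ := hKER hn
  have hC : ∀ b c : Fin n × Bool, ∃ C : ℝ, 0 < C ∧ ∀ (F : Cn n → ℝ) (M : ℝ), Continuous F →
      0 ≤ M → HB a univ M F →
      (∀ (r : ℝ) (x : Cn n), 0 < r → |Cv (fun y => hess ψ y (rb b) (rb c)) F r x| ≤
        C * M * r ^ a) ∧
      ∀ (r : ℝ) (x x' : Cn n), 0 < r → ‖x - x'‖ ≤ r →
        |Cv (fun y => hess ψ y (rb b) (rb c)) F r x - Cv (fun y => hess ψ y (rb b) (rb c)) F r x'| ≤
          C * M * ‖x - x'‖ * r ^ (a - 1) := fun b c =>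
    hCVH _ a (tf_hess hψ _ _) (int_dir (tf_dir hψ _) _) ha ha1
  choose C hC0 hCb using hC
  have ha1' : 0 < 1 - a := by linarith
  refine ⟨(∑ b, ∑ c, (2 / a + 1 / (1 - a)) * C b c) + 1, ?_, fun w hw hwc M hM => ?_⟩
  · have : 0 ≤ ∑ b, ∑ c, (2 / a + 1 / (1 - a)) * C b c :=
      Finset.sum_nonneg fun b _ => Finset.sum_nonneg fun c _ =>
        mul_nonneg (by positivity) (hC0 b c).le
    linarith
  have hF : Continuous (Lap w) := by
    unfold Lap
    exact continuous_finsetSum _ fun b _ => hess_cont hw _ _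
  have hM0 : 0 ≤ M := by
    have h1 := hM 0 (mem_univ _) (Pi.single ⟨0, hn⟩ 1) (mem_univ _)
    have h2 : ‖(0 : Cn n) - Pi.single ⟨0, hn⟩ 1‖ = 1 := by
      rw [zero_sub, norm_neg, Pi.norm_single]
      simp
    rw [h2, Real.one_rpow, mul_one] at h1
    exact (norm_nonneg _).trans h1
  intro x _ x' _
  rcases eq_or_ne x x' with hx | hx
  · have e1 : ‖x - x'‖ ^ a = 0 := by
      rw [hx, sub_self, norm_zero, Real.zero_rpow ha.ne']
    rw [e1, mul_zero]
    refine (norm_bil _).trans (le_of_eq ?_)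
    refine Finset.sum_eq_zero fun b _ => Finset.sum_eq_zero fun c _ => ?_
    rw [_root_.sub_apply, _root_.sub_apply, hx, _root_.sub_self, abs_zero]
  set h := ‖x - x'‖ with hh
  have hh0 : 0 < h := norm_pos_iff.2 (sub_ne_zero.2 hx)
  have key : ∀ b c : Fin n × Bool, |hess w x (rb b) (rb c) - hess w x' (rb b) (rb c)| ≤
      (2 / a + 1 / (1 - a)) * (C b c * M) * h ^ a := by
    intro b c
    obtain ⟨g1, g2, g3⟩ := hGSL φ ψ hφ hψ hφ1 hψd w hw hwc (rb b) (rb c) x
    obtain ⟨g1', g2', g3'⟩ := hGSL φ ψ hφ hψ hφ1 hψd w hw hwc (rb b) (rb c) x'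
    obtain ⟨b1, b2⟩ := hCb b c (Lap w) M hF hM0 hM
    refine hGSI a (C b c * M) h _
      (fun r => Cv φ (fun y => hess w y (rb b) (rb c)) r x -
        Cv φ (fun y => hess w y (rb b) (rb c)) r x')
      (fun r => r⁻¹ * Cv (fun y => hess ψ y (rb b) (rb c)) (Lap w) r x -
        r⁻¹ * Cv (fun y => hess ψ y (rb b) (rb c)) (Lap w) r x') ha ha1
      (mul_nonneg (hC0 b c).le hM0) hh0 (fun r hr => (g1 r hr).sub (g1' r hr)) ?_ ?_
      (g2.sub g2') ?_
    · intro r hr
      rw [← mul_sub, abs_mul, abs_of_pos (inv_pos.2 hr)]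
      have e1 := b1 r x hr
      have e2 := b1 r x' hr
      have e3 : |Cv (fun y => hess ψ y (rb b) (rb c)) (Lap w) r x -
          Cv (fun y => hess ψ y (rb b) (rb c)) (Lap w) r x'| ≤ 2 * (C b c * M * r ^ a) := by
        refine (abs_sub _ _).trans ?_
        linarith
      have e4 : r ^ (a - 1) = r ^ a * r⁻¹ := by
        rw [Real.rpow_sub hr, Real.rpow_one, div_eq_mul_inv]
      rw [e4]
      calc r⁻¹ * |Cv (fun y => hess ψ y (rb b) (rb c)) (Lap w) r x -
          Cv (fun y => hess ψ y (rb b) (rb c)) (Lap w) r x'|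
          ≤ r⁻¹ * (2 * (C b c * M * r ^ a)) :=
            mul_le_mul_of_nonneg_left e3 (inv_pos.2 hr).le
        _ = 2 * (C b c * M) * (r ^ a * r⁻¹) := by ring
    · intro r hr
      have hr0 : 0 < r := hh0.trans_le hr
      rw [← mul_sub, abs_mul, abs_of_pos (inv_pos.2 hr0)]
      have e1 := b2 r x x' hr0 hr
      have e4 : r ^ (a - 2) = r ^ (a - 1) * r⁻¹ := by
        have : a - 2 = (a - 1) - 1 := by ring
        rw [this, Real.rpow_sub hr0, Real.rpow_one, div_eq_mul_inv]
      rw [e4]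
      calc r⁻¹ * |Cv (fun y => hess ψ y (rb b) (rb c)) (Lap w) r x -
          Cv (fun y => hess ψ y (rb b) (rb c)) (Lap w) r x'|
          ≤ r⁻¹ * (C b c * M * ‖x - x'‖ * r ^ (a - 1)) :=
            mul_le_mul_of_nonneg_left e1 (inv_pos.2 hr0).le
        _ = C b c * M * h * (r ^ (a - 1) * r⁻¹) := by
          rw [hh]
          ring
    · have := g3.sub g3'
      rwa [sub_zero] at this
  refine (norm_bil _).trans ?_
  have h2 : ∑ b : Fin n × Bool, ∑ c : Fin n × Bool, |(D2 w x - D2 w x') (rb b) (rb c)| ≤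
      ∑ b : Fin n × Bool, ∑ c : Fin n × Bool, (2 / a + 1 / (1 - a)) * (C b c * M) * h ^ a := by
    refine Finset.sum_le_sum fun b _ => Finset.sum_le_sum fun c _ => ?_
    rw [_root_.sub_apply, _root_.sub_apply, D2_apply hw, D2_apply hw]
    exact key b c
  refine h2.trans ?_
  have e : ∑ b : Fin n × Bool, ∑ c : Fin n × Bool, (2 / a + 1 / (1 - a)) * (C b c * M) * h ^ a =
      (∑ b : Fin n × Bool, ∑ c : Fin n × Bool, (2 / a + 1 / (1 - a)) * C b c) * M * h ^ a := by
    rw [Finset.sum_mul, Finset.sum_mul]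
    refine Finset.sum_congr rfl fun b _ => ?_
    rw [Finset.sum_mul, Finset.sum_mul]
    exact Finset.sum_congr rfl fun c _ => by ring
  rw [e]
  have h3 : 0 ≤ M * h ^ a := mul_nonneg hM0 (Real.rpow_nonneg hh0.le a)
  nlinarith

end Pool.Agent.Helper94.AY
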